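import Pool.Agent.Lib.BL10.Blue

/-! Row BNC: the number of bounces is at most linear in the length. -/

namespace Pool.Agent.Lib.BL10

open Finset

namespace BNC

lemma walk (x : ℕ → ℂ) (n : ℕ) : ‖x 0 - x n‖ ≤ ∑ j ∈ range n, ‖x (j + 1) - x j‖ := by
  rw [norm_sub_rev, ← sum_range_sub x n]
  exact norm_sum_le _ _

lemma shift (f : ℕ → ℝ) (m : ℕ) (h : ∀ k, f (k + m) = f k) (j : ℕ) :
    ∑ k ∈ range m, f (k + j) = ∑ k ∈ range m, f k := by
  induction j with
  | zero => rfl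
  | succ j ih =>
    have h1 := sum_range_succ (fun k => f (k + j)) m
    have h2 := sum_range_succ' (fun k => f (k + j)) m
    have h3 : f (m + j) = f (0 + j) := by rw [add_comm m j, h, zero_add]
    have h4 : ∑ k ∈ range m, f (k + (j + 1)) = ∑ k ∈ range m, f (k + 1 + j) :=
      sum_congr rfl fun k _ => by rw [add_assoc, add_comm 1 j]
    rw [h4, ← ih]
    linarith

end BNC

theorem bBNC (hRUN : RUN) (hGAP : GAP) : BNC := by
  classical
  intro ι _ Q hQ
  obtain ⟨R, hR⟩ := hRUN ι Q hQ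
  obtain ⟨δ, hδ, hG⟩ := hGAP ι Q
  refine ⟨R / δ, by positivity, fun γ hγ => ?_⟩
  obtain ⟨hT, -, -, hper⟩ := hγ
  have h1 : ∀ k, δ ≤ ∑ j ∈ range R, ‖γ.x (j + k + 1) - γ.x (j + k)‖ := by
    intro k
    by_contra hcon
    have hT' : IsTraj Q (fun j => γ.s (j + k)) (fun j => γ.u (j + k)) fun j => γ.x (j + k) := by
      intro j
      have h := hT (j + k)
      rw [show j + k + 1 = j + 1 + k by ring] at h
      exact h
    obtain ⟨p, hp⟩ := hG ((range (R + 1)).image fun j => γ.s (j + k)) (γ.s (0 + k)) (γ.x (0 + k))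
      (openSegment_subset_segment ℝ _ _ (hT (0 + k)).1) fun i hi => by
        obtain ⟨j, hj, rfl⟩ := mem_image.1 hi
        refine ⟨γ.x (j + k), openSegment_subset_segment ℝ _ _ (hT (j + k)).1, ?_⟩
        have h2 := BNC.walk (fun j => γ.x (j + k)) j
        have h3 : ∑ i ∈ range j, ‖γ.x (i + 1 + k) - γ.x (i + k)‖ ≤
            ∑ i ∈ range R, ‖γ.x (i + k + 1) - γ.x (i + k)‖ := by
          refine le_trans (le_of_eq (sum_congr rfl fun i _ => ?_))
            (sum_le_sum_of_subset_of_nonneg (range_mono (Nat.lt_succ_iff.1 (mem_range.1 hj)))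
              fun i _ _ => norm_nonneg _)
          rw [show i + 1 + k = i + k + 1 by ring]
        exact h2.trans (h3.trans (not_le.1 hcon).le)
    exact hR _ _ _ p hT' fun j hj =>
      hp _ (mem_image.2 ⟨j, mem_range.2 (Nat.lt_succ_iff.2 hj), rfl⟩)
  have h2 : ∑ k ∈ range γ.m, ∑ j ∈ range R, ‖γ.x (j + k + 1) - γ.x (j + k)‖ = R * γ.len := by
    rw [sum_comm]
    have h3 : ∀ j ∈ range R, ∑ k ∈ range γ.m, ‖γ.x (j + k + 1) - γ.x (j + k)‖ = γ.len := by
      intro j _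
      have h4 := BNC.shift (fun k => ‖γ.x (k + 1) - γ.x k‖) γ.m (fun k => by
        show ‖γ.x (k + γ.m + 1) - γ.x (k + γ.m)‖ = ‖γ.x (k + 1) - γ.x k‖
        rw [show k + γ.m + 1 = k + 1 + γ.m by ring, (hper k).2.2, (hper (k + 1)).2.2]) j
      rw [Orbit.len, ← h4]
      exact sum_congr rfl fun k _ => by rw [add_comm j k]
    rw [sum_congr rfl h3, sum_const, card_range, nsmul_eq_mul]
  have h5 : ∑ _k ∈ range γ.m, δ ≤ R * γ.len := h2 ▸ sum_le_sum fun k _ => h1 k
  rw [sum_const, card_range, nsmul_eq_mul] at h5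
  rw [div_mul_eq_mul_div, le_div_iff₀ hδ]
  exact h5

end Pool.Agent.Lib.BL10
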