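import Pool.Agent.Lib.BL10.Blue

/-! Row CNT: boundedly many bands for each direction. -/

namespace Pool.Agent.Lib.BL10

open Finset

theorem bCNT (hC : CRIT) (hL : LAB) : CNT := by
  classical
  intro ι _ Q F W hF hP
  have h1 : ∀ γ : F, ∃ (τ : ℝ) (k : ℕ) (i : ι) (c : Bool),
      Crit Q γ.1 τ k (if c then Q.a i else Q.b i) := by
    intro γ
    obtain ⟨τ, k, p, h⟩ := hC ι Q γ.1 (hF γ.1 γ.2).1
    obtain ⟨i, rfl | rfl⟩ := h.2.2.1
    · exact ⟨τ, k, i, true, h⟩
    · exact ⟨τ, k, i, false, h⟩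
  choose τ k i c h using h1
  have key := card_le_card_of_injOn (s := (univ : Finset F))
    (t := (univ : Finset ((ι × Bool) × (ι × Bool))) ×ˢ W)
    (fun γ => (((i γ, c γ), (γ.1.s (k γ), decide (Even (k γ)))), γ.1.u (k γ)))
    (fun γ _ => mem_coe.2 (mem_product.2 ⟨mem_univ _, (hF γ.1 γ.2).2 _⟩)) (by
      intro γ _ γ' _ e
      simp only [Prod.mk.injEq, decide_eq_decide] at e
      obtain ⟨⟨⟨e1, e2⟩, e3, e4⟩, e5⟩ := e
      by_contra hne
      have h' := h γ'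
      rw [← e1, ← e2] at h'
      exact hP γ.2 γ'.2 (fun e => hne (Subtype.ext e))
        (hL ι Q γ.1 γ'.1 _ _ _ _ _ (hF γ.1 γ.2).1 (hF γ'.1 γ'.2).1 (h γ) h' e5 e3 e4))
  simp only [card_univ, Fintype.card_coe, card_product, Fintype.card_prod, Fintype.card_bool]
    at key
  exact key.trans (le_of_eq (by ring))

end Pool.Agent.Lib.BL10
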