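import Pool.Agent.Lib.BL10.B_DIS1

set_option autoImplicit false

namespace Pool.Agent.Lib.BL10

namespace CRIT

/-- no vertex lies on a closed link of a trajectory -/
lemma noVertex {ι : Type} {Q : Table ι} {s : ℕ → ι} {u x : ℕ → ℂ} (h : IsTraj Q s u x) (k : ℕ)
    (i : ι) (p : ℂ) (hp : p = Q.a i ∨ p = Q.b i) : p ∉ segment ℝ (x k) (x (k + 1)) := by
  have hpi : p ∈ segment ℝ (Q.a i) (Q.b i) := by
    rcases hp with rfl | rfl
    · exact left_mem_segment _ _ _
    · exact right_mem_segment _ _ _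
  have hne : ∀ j, p ≠ x j := fun j hj => by
    have ho := (h j).1
    by_cases hs : s j = i
    · rw [hs, ← hj] at ho
      rcases hp with rfl | rfl
      · exact Q.ne i (left_mem_openSegment_iff.1 ho)
      · exact Q.ne i (right_mem_openSegment_iff.1 ho)
    · exact Set.disjoint_left.1 (Q.disj _ _ hs) (hj ▸ ho) hpi
  intro hm
  exact Set.disjoint_left.1 ((h k).2.2.2.1 i)
    (mem_openSegment_of_ne_left_right (hne k).symm (hne (k + 1)).symm hm) hpi

/-- a point of a displaced closed link has the time of the displacement -/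
lemma time (hT : TRV) {ι : Type} {Q : Table ι} {s : ℕ → ι} {u x : ℕ → ℂ} (h : IsTraj Q s u x)
    (k : ℕ) (t : ℝ) (p : ℂ) (hp : p ∈ segment ℝ (disp Q s u x t k) (disp Q s u x t (k + 1))) :
    cr (u k) (p - x k) = t * (-1) ^ k := by
  obtain ⟨l0, l1, -, -, hl⟩ := DIS1.step hT h k
  obtain ⟨r, -, -, rfl⟩ := TRV.mem_seg.1 hp
  have hc := (hT ι Q s u x h k).1
  have e : disp Q s u x t k + r * (disp Q s u x t (k + 1) - disp Q s u x t k) - x k =
      ((t * (-1) ^ k / cr (u k) (Q.e (s k)) : ℝ) : ℂ) * Q.e (s k) +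
        ((r * (l0 + t * l1) : ℝ) : ℂ) * u k := by
    rw [hl t]
    simp only [disp]
    push_cast
    ring
  rw [e, DIS1.cr_add, DIS1.cr_smul, DIS1.cr_smul, DIS1.cr_self, div_mul_cancel₀ _ hc]
  ring

end CRIT

theorem bCRIT (hT : TRV) (hD : DISP) : CRIT := by
  intro ι _ Q γ ⟨h, hm, hev, hper⟩
  classical
  have hsq : ∀ k : ℕ, ((-1 : ℝ) ^ k) * (-1) ^ k = 1 := fun k => by rw [← mul_pow]; norm_num
  set F : ℂ → ℕ → ℝ := fun p k => (-1) ^ k * cr (γ.u k) (p - γ.x k) with hF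
  have hFp : ∀ p, Function.Periodic (F p) γ.m := fun p k => by
    simp only [hF]
    rw [(hper k).2.1, (hper k).2.2, pow_add, hev.neg_one_pow, mul_one]
  set V : Finset ℂ := Finset.univ.image Q.a ∪ Finset.univ.image Q.b with hV
  have hVm : ∀ p, p ∈ V ↔ ∃ i, p = Q.a i ∨ p = Q.b i := fun p => by
    simp only [hV, Finset.mem_union, Finset.mem_image, Finset.mem_univ, true_and]
    constructor
    · rintro (⟨i, rfl⟩ | ⟨i, rfl⟩)
      · exact ⟨i, Or.inl rfl⟩
      · exact ⟨i, Or.inr rfl⟩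
    · rintro ⟨i, rfl | rfl⟩
      · exact Or.inl ⟨i, rfl⟩
      · exact Or.inr ⟨i, rfl⟩
  set S : Finset (ℂ × ℕ) := (V ×ˢ Finset.range γ.m).filter fun z => 0 < F z.1 z.2 with hS
  have hne : S.Nonempty := by
    obtain ⟨r, hr0, hr1, hx⟩ := TRV.mem_open.1 (h 0).1
    have hc := (hT ι Q _ _ _ h 0).1
    have ea : F (Q.a (γ.s 0)) 0 = -r * cr (γ.u 0) (Q.e (γ.s 0)) := by
      have : Q.a (γ.s 0) - γ.x 0 = ((-r : ℝ) : ℂ) * Q.e (γ.s 0) := by
        rw [hx]; simp only [Table.e]; push_cast; ring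
      simp only [hF]
      rw [this, DIS1.cr_smul]; ring
    have eb : F (Q.b (γ.s 0)) 0 = (1 - r) * cr (γ.u 0) (Q.e (γ.s 0)) := by
      have : Q.b (γ.s 0) - γ.x 0 = ((1 - r : ℝ) : ℂ) * Q.e (γ.s 0) := by
        rw [hx]; simp only [Table.e]; push_cast; ring
      simp only [hF]
      rw [this, DIS1.cr_smul]; ring
    rcases lt_or_gt_of_ne hc with hlt | hgt
    · refine ⟨(Q.a (γ.s 0), 0), Finset.mem_filter.2 ⟨Finset.mem_product.2
        ⟨(hVm _).2 ⟨_, Or.inl rfl⟩, Finset.mem_range.2 hm⟩, ?_⟩⟩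
      rw [ea]; nlinarith
    · refine ⟨(Q.b (γ.s 0), 0), Finset.mem_filter.2 ⟨Finset.mem_product.2
        ⟨(hVm _).2 ⟨_, Or.inr rfl⟩, Finset.mem_range.2 hm⟩, ?_⟩⟩
      rw [eb]; nlinarith
  obtain ⟨⟨p, k⟩, hz, hmin⟩ := S.exists_min_image (fun z => F z.1 z.2) hne
  obtain ⟨hz1, hz2⟩ := Finset.mem_filter.1 hz
  refine ⟨F p k, k, p, hz2, fun t ht => hD ι Q _ _ _ t h ht.1 fun t' ht' k' i => ?_,
    (hVm p).1 (Finset.mem_product.1 hz1).1, ?_⟩
  · have key : ∀ q, (q = Q.a i ∨ q = Q.b i) →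
        q ∉ segment ℝ (disp Q γ.s γ.u γ.x t' k') (disp Q γ.s γ.u γ.x t' (k' + 1)) := by
      intro q hq hmem
      rcases ht'.1.eq_or_lt with h0 | hpos
      · subst h0
        have : ∀ j, disp Q γ.s γ.u γ.x 0 j = γ.x j := fun j => by simp [disp]
        rw [this, this] at hmem
        exact CRIT.noVertex h k' i q hq hmem
      · have e1 : F q k' = t' := by
          simp only [hF]
          rw [CRIT.time hT h k' t' q hmem]
          linear_combination t' * hsq k'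
        have e2 : F q (k' % γ.m) = t' := by rw [(hFp q).map_mod_nat, e1]
        have := hmin (q, k' % γ.m) (Finset.mem_filter.2 ⟨Finset.mem_product.2
          ⟨(hVm q).2 ⟨i, hq⟩, Finset.mem_range.2 (Nat.mod_lt _ hm)⟩, by rw [e2]; exact hpos⟩)
        simp only [e2] at this
        linarith [ht.2, ht'.2]
    exact ⟨key _ (Or.inl rfl), key _ (Or.inr rfl)⟩
  · simp only [hF]
    linear_combination (-cr (γ.u k) (p - γ.x k)) * hsq k

end Pool.Agent.Lib.BL10
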