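import Pool.Agent.Lib.BL10.B_DIS1

/-! Displacement, second half. -/

namespace Pool.Agent.Lib.BL10

namespace DISP

open TRV DIS1

/-- decomposition in a basis -/
lemma decomp {w e : ℂ} (h : cr w e ≠ 0) (v : ℂ) :
    v = ((cr w v / cr w e : ℝ) : ℂ) * e + ((cr e v / cr e w : ℝ) : ℂ) * w := by
  have h' : cr e w = -cr w e := cr_swap e w
  rw [h']
  apply Complex.ext
  · simp only [Complex.add_re, Complex.mul_re, Complex.ofReal_re, Complex.ofReal_im, zero_mul,
      sub_zero]
    field_simp
    unfold cr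
    ring
  · simp only [Complex.add_im, Complex.mul_im, Complex.ofReal_re, Complex.ofReal_im, zero_mul,
      add_zero]
    field_simp
    unfold cr
    ring

lemma cr_cont (w : ℂ) : Continuous fun y => cr w y := by
  unfold cr
  fun_prop

/-- two points of a closed side differ by a multiple of its direction -/
lemma cr_side {ι : Type} (Q : Table ι) {i : ι} {y z : ℂ} (hy : y ∈ segment ℝ (Q.a i) (Q.b i))
    (hz : z ∈ segment ℝ (Q.a i) (Q.b i)) : cr (Q.e i) (y - z) = 0 := by
  obtain ⟨r, -, -, rfl⟩ := mem_seg.1 hy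
  obtain ⟨r', -, -, rfl⟩ := mem_seg.1 hz
  have : Q.a i + r * (Q.b i - Q.a i) - (Q.a i + r' * (Q.b i - Q.a i)) =
      ((r - r' : ℝ) : ℂ) * Q.e i := by
    simp only [Table.e]
    push_cast
    ring
  rw [this, cr_smul, cr_self, mul_zero]

end DISP

open TRV DIS1 DISP in
theorem bDISP (hT : TRV) (h1 : DIS1) : DISP := by
  intro ι Q s u x τ h h0 hv k
  have H := h1 ι Q s u x τ h h0 hv
  have hτ : τ ∈ Set.Icc (0 : ℝ) τ := ⟨h0, le_rfl⟩
  refine ⟨(H τ hτ k).1, (h k).2.1, (H τ hτ k).2, fun j => ?_, (h k).2.2.2.2⟩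
  obtain ⟨l0, l1, hl0, hx, hl⟩ := step hT h k
  obtain ⟨cA, cB, -⟩ := hT ι Q s u x h k
  have cB' : cr (u k) (Q.e (s (k + 1))) ≠ 0 := by
    rw [cB]
    exact neg_ne_zero.2 (hT ι Q s u x h (k + 1)).1
  have cA' : cr (Q.e (s k)) (u k) ≠ 0 := by
    rw [cr_swap]
    exact neg_ne_zero.2 cA
  have hu0 : u k ≠ 0 := fun h0 => cA (by simp [h0, cr])
  have hd0 := (h k).2.2.2.1 j
  have lpos : ∀ t ∈ Set.Icc (0 : ℝ) τ, 0 < l0 + t * l1 := by
    intro t ht
    obtain ⟨l, hl', e⟩ := (H t ht k).2
    rw [hl t, add_right_inj, mul_left_inj' hu0] at e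
    have : l0 + t * l1 = l := by exact_mod_cast e
    rwa [this]
  have hσ : ((-1 : ℝ) ^ k) * (-1) ^ k = 1 := by
    rw [← mul_pow]
    norm_num
  set T : ℂ → ℝ := fun y => (-1) ^ k * cr (u k) (y - x k) with hTd
  set g : ℂ → ℝ := fun y => cr (Q.e (s k)) (y - x k) / cr (Q.e (s k)) (u k) with hg
  have dec : ∀ y, y = disp Q s u x (T y) k + (g y : ℂ) * u k := by
    intro y
    have e := decomp cA (y - x k)
    have e2 : T y * (-1) ^ k = cr (u k) (y - x k) := by
      simp only [hTd]
      linear_combination cr (u k) (y - x k) * hσ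
    unfold disp
    rw [e2]
    simp only [hg]
    linear_combination e
  have val : ∀ t q : ℝ, T (disp Q s u x t k + q * u k) = t ∧
      g (disp Q s u x t k + q * u k) = q := by
    intro t q
    have e : disp Q s u x t k + q * u k - x k =
        ((t * (-1) ^ k / cr (u k) (Q.e (s k)) : ℝ) : ℂ) * Q.e (s k) + q * u k := by
      unfold disp
      ring
    simp only [hTd, hg]
    rw [e]
    simp only [cr_add, cr_smul, cr_self]
    constructor
    · field_simp
      linear_combination t * hσ
    · field_simp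
      ring
  refine Set.disjoint_left.2 fun z hz hzj => ?_
  obtain ⟨q, q0, q1, hq⟩ := mem_open.1 hz
  have hz' : z = disp Q s u x τ k + ((q * (l0 + τ * l1) : ℝ) : ℂ) * u k := by
    rw [hq, hl τ]
    push_cast
    ring
  have Tz : T z = τ := by
    rw [hz']
    exact (val _ _).1
  have gz : g z = q * (l0 + τ * l1) := by
    rw [hz']
    exact (val _ _).2
  have lτ := lpos τ hτ
  -- the three bad cases at a point of side `j`
  have bad : ∀ y ∈ segment ℝ (Q.a j) (Q.b j), T y ≤ τ →
      min (T y) (min (g y) (l0 + T y * l1 - g y)) ≠ 0 := by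
    intro y hy hT1 hm
    have m1 : 0 ≤ T y := hm ▸ min_le_left _ _
    have m2 : 0 ≤ g y := hm ▸ (min_le_right _ _).trans (min_le_left _ _)
    have m3 : 0 ≤ l0 + T y * l1 - g y := hm ▸ (min_le_right _ _).trans (min_le_right _ _)
    have ht : T y ∈ Set.Icc (0 : ℝ) τ := ⟨m1, hT1⟩
    rcases m2.eq_or_lt with e | m2
    · have ey : y = disp Q s u x (T y) k := by
        have := dec y
        rw [← e] at this
        simpa using this
      have hj : s k = j := by
        by_contra hne
        exact Set.disjoint_left.1 (Q.disj _ _ hne) (ey ▸ (H _ ht k).1) hy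
      rw [← hj] at hzj
      have := cr_side Q hzj (openSegment_subset_segment _ _ _ (h k).1)
      have g0 : g z = 0 := by simp only [hg, this, zero_div]
      rw [gz] at g0
      exact (mul_pos q0 lτ).ne' g0
    rcases m3.eq_or_lt with e | m3
    · have ey : y = disp Q s u x (T y) (k + 1) := by
        have e' : l0 + T y * l1 = g y := by linarith
        rw [hl, e']
        exact dec y
      have hj : s (k + 1) = j := by
        by_contra hne
        exact Set.disjoint_left.1 (Q.disj _ _ hne) (ey ▸ (H _ ht (k + 1)).1) hy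
      rw [← hj] at hzj
      have := cr_side Q (openSegment_subset_segment _ _ _ (H τ hτ (k + 1)).1) hzj
      have e2 : disp Q s u x τ (k + 1) - z = (((1 - q) * (l0 + τ * l1) : ℝ) : ℂ) * u k := by
        rw [hz', hl τ]
        push_cast
        ring
      rw [e2, cr_smul, cr_swap] at this
      exact mul_ne_zero (mul_pos (by linarith) lτ).ne' (neg_ne_zero.2 cB') this
    have t0 : T y = 0 := by
      by_contra hne
      exact (lt_min (lt_of_le_of_ne m1 (Ne.symm hne)) (lt_min m2 m3)).ne' hm
    rw [t0] at m3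
    refine Set.disjoint_left.1 hd0 (mem_open.2 ⟨g y / l0, div_pos m2 hl0,
      (div_lt_one hl0).2 (by linarith), ?_⟩) hy
    have e := dec y
    rw [t0] at e
    have l0' : (l0 : ℂ) ≠ 0 := by exact_mod_cast hl0.ne'
    rw [hx]
    simp only [disp, zero_mul, zero_div, Complex.ofReal_zero, add_zero] at e
    push_cast
    field_simp
    linear_combination l0 * e
  have τ0 : 0 < τ := by
    refine lt_of_le_of_ne h0 fun e => bad z hzj Tz.le ?_
    rw [Tz, gz, ← e]
    refine min_eq_left (le_min ?_ ?_) <;> nlinarith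
  have Taff : ∀ (A B : ℂ) (r : ℝ), T (A + r * (B - A)) = T A + r * (T B - T A) := by
    intro A B r
    have e : A + r * (B - A) - x k = (A - x k) + r * ((B - x k) - (A - x k)) := by ring
    simp only [hTd]
    rw [e, cr_add, cr_smul, cr_sub _ (B - x k)]
    ring
  obtain ⟨E, hE, hEj, hET⟩ : ∃ E, (E = Q.a j ∨ E = Q.b j) ∧ E ∈ segment ℝ (Q.a j) (Q.b j) ∧
      T E ≤ τ := by
    obtain ⟨r, r0, r1, hr⟩ := mem_seg.1 hzj
    have := Taff (Q.a j) (Q.b j) r
    rw [← hr, Tz] at this
    rcases le_total (T (Q.a j)) (T (Q.b j)) with c | c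
    · exact ⟨_, Or.inl rfl, left_mem_segment _ _ _, by nlinarith⟩
    · exact ⟨_, Or.inr rfl, right_mem_segment _ _ _, by nlinarith⟩
  set m : ℂ → ℝ := fun y => min (T y) (min (g y) (l0 + T y * l1 - g y)) with hm
  have mz : 0 < m z := by
    simp only [hm]
    rw [Tz, gz]
    exact lt_min τ0 (lt_min (mul_pos q0 lτ) (by nlinarith))
  have mE : m E < 0 := by
    by_contra hn
    have hn := not_lt.1 hn
    have m1 : 0 ≤ T E := hn.trans (min_le_left _ _)
    have m2 : 0 ≤ g E := hn.trans ((min_le_right _ _).trans (min_le_left _ _))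
    have m3 : 0 ≤ l0 + T E * l1 - g E := hn.trans ((min_le_right _ _).trans (min_le_right _ _))
    have ht : T E ∈ Set.Icc (0 : ℝ) τ := ⟨m1, hET⟩
    have lp := lpos _ ht
    have hs : E ∈ segment ℝ (disp Q s u x (T E) k) (disp Q s u x (T E) (k + 1)) := by
      refine mem_seg.2 ⟨g E / (l0 + T E * l1), div_nonneg m2 lp.le,
        (div_le_one lp).2 (by linarith), ?_⟩
      have l0' : ((l0 + T E * l1 : ℝ) : ℂ) ≠ 0 := by exact_mod_cast lp.ne'
      rw [hl, add_sub_cancel_left, Complex.ofReal_div, ← mul_assoc, div_mul_cancel₀ _ l0']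
      exact dec E
    rcases hE with e | e
    · exact (hv _ ht k j).1 (e ▸ hs)
    · exact (hv _ ht k j).2 (e ▸ hs)
  have cT : Continuous T :=
    continuous_const.mul ((cr_cont _).comp (continuous_id.sub continuous_const))
  have cg : Continuous g :=
    ((cr_cont _).comp (continuous_id.sub continuous_const)).div_const _
  have cm : Continuous fun r : ℝ => m (E + r * (z - E)) :=
    (cT.min (cg.min ((continuous_const.add (cT.mul continuous_const)).sub cg))).comp (by fun_prop)
  obtain ⟨r, ⟨r0, r1⟩, hr⟩ := intermediate_value_Icc (zero_le_one' ℝ) cm.continuousOn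
    (show (0 : ℝ) ∈ Set.Icc _ _ from ⟨by simpa using mE.le, by simpa using mz.le⟩)
  refine bad _ ((convex_segment (𝕜 := ℝ) _ _).segment_subset hEj hzj
    (mem_seg.2 ⟨r, r0, r1, rfl⟩)) ?_ hr
  rw [Taff, Tz]
  nlinarith

end Pool.Agent.Lib.BL10
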