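import Pool.Agent.Lib.BL10.Blue

/-! Sides that come close to one point have a common point. -/

namespace Pool.Agent.Lib.BL10

open Finset Filter Topology

namespace GAP

theorem seg_compact (a b : ℂ) : IsCompact (segment ℝ a b) := by
  rw [segment_eq_image]
  exact isCompact_Icc.image (by fun_prop)

theorem one {ι : Type} (S : ι → Set ℂ) (hS : ∀ j, IsClosed (S j)) (hne : ∀ j, (S j).Nonempty)
    (K : Set ℂ) (hK : IsCompact K) (hKne : K.Nonempty) (J : Finset ι) :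
    ∃ δ0 : ℝ, 0 < δ0 ∧ ∀ δ : ℝ, δ < δ0 → ∀ x ∈ K, (∀ j ∈ J, ∃ y ∈ S j, ‖x - y‖ ≤ δ) →
      ∃ p, ∀ j ∈ J, p ∈ S j := by
  by_cases hp : ∃ p, ∀ j ∈ J, p ∈ S j
  · exact ⟨1, one_pos, fun _ _ _ _ _ => hp⟩
  have hc : Continuous fun x : ℂ => ∑ j ∈ J, Metric.infDist x (S j) :=
    continuous_finsetSum _ fun j _ => Metric.continuous_infDist_pt (S j)
  obtain ⟨x0, -, hmin⟩ := hK.exists_isMinOn hKne hc.continuousOn
  have h0 : 0 < ∑ j ∈ J, Metric.infDist x0 (S j) := by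
    rcases (Finset.sum_nonneg fun j (_ : j ∈ J) =>
      (Metric.infDist_nonneg : 0 ≤ Metric.infDist x0 (S j))).lt_or_eq with h | h
    · exact h
    · exfalso
      refine hp ⟨x0, fun j hj => ?_⟩
      have h1 := (Finset.sum_eq_zero_iff_of_nonneg fun j (_ : j ∈ J) =>
        (Metric.infDist_nonneg : 0 ≤ Metric.infDist x0 (S j))).1 h.symm j hj
      exact ((hS j).mem_iff_infDist_zero (hne j)).2 h1
  set m := ∑ j ∈ J, Metric.infDist x0 (S j) with hm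
  have hJ : (0 : ℝ) < (#J : ℝ) + 1 := by positivity
  refine ⟨m / ((#J : ℝ) + 1), div_pos h0 hJ, fun δ hδ x hx h => ?_⟩
  exfalso
  have h1 : m ≤ ∑ j ∈ J, Metric.infDist x (S j) := hmin hx
  have h2 : ∑ j ∈ J, Metric.infDist x (S j) ≤ ∑ _j ∈ J, m / ((#J : ℝ) + 1) := by
    refine Finset.sum_le_sum fun j hj => ?_
    obtain ⟨y, hy, hxy⟩ := h j hj
    have h3 := Metric.infDist_le_dist_of_mem (x := x) hy
    rw [dist_eq_norm] at h3
    linarith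
  rw [Finset.sum_const, nsmul_eq_mul] at h2
  have h4 : ((#J : ℝ) + 1) * (m / ((#J : ℝ) + 1)) = m := by field_simp
  have h5 := div_pos h0 hJ
  nlinarith

end GAP

theorem bGAP : GAP := by
  intro ι _ Q
  have h1 : ∀ q : Finset ι × ι, ∀ᶠ δ : ℝ in 𝓝[>] 0, ∀ x ∈ segment ℝ (Q.a q.2) (Q.b q.2),
      (∀ j ∈ q.1, ∃ y ∈ segment ℝ (Q.a j) (Q.b j), ‖x - y‖ ≤ δ) →
      ∃ p, ∀ j ∈ q.1, p ∈ segment ℝ (Q.a j) (Q.b j) := by
    intro q
    obtain ⟨δ0, h0, h⟩ := GAP.one (fun j => segment ℝ (Q.a j) (Q.b j))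
      (fun j => (GAP.seg_compact _ _).isClosed) (fun j => ⟨_, left_mem_segment _ _ _⟩)
      (segment ℝ (Q.a q.2) (Q.b q.2)) (GAP.seg_compact _ _) ⟨_, left_mem_segment _ _ _⟩ q.1
    filter_upwards [mem_nhdsWithin_of_mem_nhds (Iio_mem_nhds h0)] with δ hδ
    exact h δ hδ
  obtain ⟨δ, hδ, hpos⟩ := ((Filter.eventually_all.2 h1).and self_mem_nhdsWithin).exists
  exact ⟨δ, hpos, fun J i x hx h => hδ (J, i) x hx h⟩

end Pool.Agent.Lib.BL10
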