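import Pool.Agent.Lib.BL10.Blue

/-! Row HOL: the holonomy of a closed trajectory is a short sum. -/

namespace Pool.Agent.Lib.BL10

open Finset

namespace HOL

theorem shift_sum (f : ℕ → ℝ) (m : ℕ) (hf : ∀ k, f (k + m) = f k) (k : ℕ) :
    ∑ j ∈ range m, f (j + k) = ∑ j ∈ range m, f j := by
  induction k with
  | zero => rfl
  | succ k ih =>
    have h1 := sum_range_succ (fun j => f (j + k)) m
    have h2 := sum_range_succ' (fun j => f (j + k)) m
    have h3 : f (m + k) = f (0 + k) := by rw [add_comm m k, hf, zero_add]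
    have h4 : ∑ j ∈ range m, f (j + (k + 1)) = ∑ j ∈ range m, f (j + 1 + k) :=
      sum_congr rfl fun j _ => by rw [show j + (k + 1) = j + 1 + k by omega]
    rw [h4, ← ih]
    linarith

theorem shift_traj {ι : Type} {Q : Table ι} {s : ℕ → ι} {u x : ℕ → ℂ} (h : IsTraj Q s u x)
    (k : ℕ) : IsTraj Q (fun j => s (j + k)) (fun j => u (j + k)) (fun j => x (j + k)) := by
  intro j
  have e : j + 1 + k = j + k + 1 := by omega
  simp only [e]
  exact h (j + k)

end HOL

theorem bHOL (hR : RAT) (hU : UNF) : HOL := by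
  classical
  intro ι _ Q hQ
  obtain ⟨N, hN⟩ := hR ι Q hQ
  have hN2 : 0 < 2 * N := by have := hN.1; omega
  refine ⟨(Polynomial.nthRootsFinset (2 * N) (1 : ℂ) ×ˢ (univ : Finset ι)).image
    fun a => a.1 * Q.c 0 a.2, ?_⟩
  rintro γ ⟨ht, -, hev, hper⟩ k
  obtain ⟨S, ω, hS, h1, -⟩ := hU ι Q N _ _ _ 0
    (fun n S => SumLe ((Polynomial.nthRootsFinset (2 * N) (1 : ℂ) ×ˢ (univ : Finset ι)).image
      fun a => a.1 * Q.c 0 a.2) n S) hN (HOL.shift_traj ht k)
    ⟨[], le_rfl, fun _ hg => absurd hg List.not_mem_nil, rfl⟩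
    (by
      rintro n S ζ hζ ⟨l, hl1, hl2, hl3⟩
      refine ⟨(ζ * Q.c 0 (γ.s (n + 1 + k))) :: l, by simpa using hl1, fun g hg => ?_, ?_⟩
      · rcases List.mem_cons.1 hg with rfl | hg
        · exact mem_image.2 ⟨(ζ, γ.s (n + 1 + k)), mem_product.2
            ⟨(Polynomial.mem_nthRootsFinset hN2 1).2 hζ, mem_univ _⟩, rfl⟩
        · exact hl2 g hg
      · rw [List.sum_cons, hl3, add_comm]) γ.m
  obtain ⟨-, h2, h3⟩ := h1 hev
  have eu : γ.u (γ.m + k) = γ.u k := by rw [add_comm]; exact (hper k).2.1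
  have ex : γ.x (γ.m + k) = γ.x k := by rw [add_comm]; exact (hper k).2.2
  have hu : γ.u k ≠ 0 := by
    intro h0
    have := (ht k).2.1
    rw [h0, norm_zero] at this
    exact zero_ne_one this
  simp only [zero_add, eu, ex, sub_zero] at h2 h3
  have hω : ω = 1 := mul_right_cancel₀ hu (by rw [h2, one_mul])
  have hl : ∑ j ∈ range γ.m, ‖γ.x (j + 1 + k) - γ.x (j + k)‖ = γ.len := by
    have := HOL.shift_sum (fun j => ‖γ.x (j + 1) - γ.x j‖) γ.m (fun j => by
      have e : j + γ.m + 1 = j + 1 + γ.m := by omega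
      rw [e, (hper (j + 1)).2.2, (hper j).2.2]) k
    unfold Orbit.len
    rw [← this]
    exact sum_congr rfl fun j _ => by rw [show j + 1 + k = j + k + 1 by omega]
  rw [hl, hω, one_mul] at h3
  have hS' : (γ.len : ℂ) * γ.u k = S := by linear_combination h3
  rw [hS']
  exact hS

end Pool.Agent.Lib.BL10
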