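import Pool.Agent.Lib.BL10.B_DIS1

/-! Equal labels give one band. -/

namespace Pool.Agent.Lib.BL10

namespace LAB

lemma shift {ι : Type} {Q : Table ι} {s : ℕ → ι} {u x : ℕ → ℂ} (h : IsTraj Q s u x) (r : ℕ) :
    IsTraj Q (fun k => s (k + r)) (fun k => u (k + r)) (fun k => x (k + r)) := by
  intro k
  have e : k + 1 + r = k + r + 1 := Nat.add_right_comm k 1 r
  simp only [e]
  exact h (k + r)

lemma slide {ι : Type} {Q : Table ι} {γ : Orbit ι} (hc : Closed Q γ) {τ t : ℝ}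
    (hv : ∀ t ∈ Set.Ico (0 : ℝ) τ, IsTraj Q γ.s γ.u (disp Q γ.s γ.u γ.x t))
    (ht : t ∈ Set.Ico (0 : ℝ) τ) (r : ℕ) :
    Slides Q γ r fun j => disp Q γ.s γ.u γ.x t (j + r) := by
  obtain ⟨-, -, he, hp⟩ := hc
  refine ⟨fun j => ?_, fun c hc => ?_⟩
  · have e : j + γ.m + r = j + r + γ.m := Nat.add_right_comm j γ.m r
    obtain ⟨p1, p2, p3⟩ := hp (j + r)
    simp only [e, disp, p1, p2, p3, pow_add _ (j + r) γ.m, he.neg_one_pow, mul_one]
  · have h1 : c * t ∈ Set.Ico (0 : ℝ) τ :=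
      ⟨mul_nonneg hc.1 ht.1, lt_of_le_of_lt (mul_le_of_le_one_left ht.1 hc.2) ht.2⟩
    have h2 := shift (hv _ h1) r
    have e : (fun j => disp Q γ.s γ.u γ.x (c * t) (j + r)) =
        fun j => (1 - (c : ℂ)) * γ.x (j + r) + c * disp Q γ.s γ.u γ.x t (j + r) := by
      funext j
      simp only [disp]
      push_cast
      ring
    rw [e] at h2
    exact h2

lemma cr_disp (hT : TRV) {ι : Type} {Q : Table ι} {s : ℕ → ι} {u x : ℕ → ℂ} (h : IsTraj Q s u x)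
    (t : ℝ) (k : ℕ) (p : ℂ) :
    cr (u k) (p - disp Q s u x t k) = cr (u k) (p - x k) - t * (-1) ^ k := by
  have h0 := (hT ι Q s u x h k).1
  unfold disp
  rw [← sub_sub, DIS1.cr_sub _ (p - x k), DIS1.cr_smul, div_mul_cancel₀ _ h0]

end LAB

theorem bLAB (hT : TRV) (hD : DET) : LAB := by
  intro ι Q γ γ' τ τ' k k' p hc hc' ⟨h0, hv, _, hp⟩ ⟨h0', hv', _, hp'⟩ hu hs hk
  have hd : 0 < min τ τ' := lt_min h0 h0'
  have m1 : τ - min τ τ' ∈ Set.Ico (0 : ℝ) τ :=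
    ⟨sub_nonneg.2 (min_le_left _ _), by linarith⟩
  have m2 : τ' - min τ τ' ∈ Set.Ico (0 : ℝ) τ' :=
    ⟨sub_nonneg.2 (min_le_right _ _), by linarith⟩
  have hsg : ((-1 : ℝ)) ^ k = (-1) ^ k' := by
    by_cases e : Even k
    · rw [e.neg_one_pow, (hk.1 e).neg_one_pow]
    · rw [(Nat.not_even_iff_odd.1 e).neg_one_pow,
        (Nat.not_even_iff_odd.1 fun e' => e (hk.2 e')).neg_one_pow]
  have t1 := hv _ m1
  have t2 := hv' _ m2
  have c1 := LAB.cr_disp hT hc.1 (τ - min τ τ') k p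
  have c2 := LAB.cr_disp hT hc'.1 (τ' - min τ τ') k' p
  obtain ⟨r, -, -, hr⟩ := TRV.mem_open.1 (t1 k).1
  obtain ⟨r', -, -, hr'⟩ := TRV.mem_open.1 (t2 k').1
  have hy : disp Q γ.s γ.u γ.x (τ - min τ τ') k = disp Q γ'.s γ'.u γ'.x (τ' - min τ τ') k' := by
    have n0 := (hT ι Q _ _ _ hc.1 k).1
    rw [hp] at c1
    rw [hp', ← hu, ← hsg, hr', ← hs] at c2
    rw [hr] at c1
    rw [← sub_sub, DIS1.cr_sub, DIS1.cr_smul] at c1 c2
    have : (r - r') * cr (γ.u k) (Q.e (γ.s k)) = 0 := by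
      unfold Table.e
      linarith
    have e : r = r' := sub_eq_zero.1 ((mul_eq_zero.1 this).resolve_right n0)
    rw [hr, hr', ← hs, e]
  have hz := hD ι Q _ _ _ _ _ _ (LAB.shift t1 k) (LAB.shift t2 k') (by simpa using hu)
    (by simpa using hy)
  refine ⟨k, k', _, LAB.slide hc hv m1 k, ?_⟩
  have e : (fun j => disp Q γ.s γ.u γ.x (τ - min τ τ') (j + k)) =
      fun j => disp Q γ'.s γ'.u γ'.x (τ' - min τ τ') (j + k') := funext fun j => (hz j).2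
  rw [e]
  exact LAB.slide hc' hv' m2 k'

end Pool.Agent.Lib.BL10
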