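import Pool.Agent.Lib.BL10.Blue

/-! A common order of the rotations of a rational table. -/

namespace Pool.Agent.Lib.BL10

namespace RAT

theorem e_ne' {ι : Type} (Q : Table ι) (i : ι) : Q.e i ≠ 0 :=
  sub_ne_zero.mpr (Q.ne i).symm

theorem conj_exp (r : ℚ) :
    (starRingEnd ℂ) (Complex.exp (Real.pi * r * Complex.I)) =
      (Complex.exp (Real.pi * r * Complex.I))⁻¹ := by
  rw [← Complex.exp_conj, ← Complex.exp_neg]
  congr 1
  simp

theorem pow_den (r : ℚ) :
    (Complex.exp (Real.pi * r * Complex.I) ^ 2) ^ r.den = 1 := by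
  rw [← pow_mul, ← Complex.exp_nat_mul]
  have h : ((r : ℂ)) * (r.den : ℂ) = (r.num : ℂ) := by
    have := Rat.mul_den_eq_num r
    exact_mod_cast this
  have h2 : ((2 * r.den : ℕ) : ℂ) * (Real.pi * r * Complex.I)
      = (r.num : ℂ) * (2 * Real.pi * Complex.I) := by
    rw [← h]; push_cast; ring
  rw [h2]
  exact Complex.exp_int_mul_two_pi_mul_I r.num

theorem pair {ι : Type} (Q : Table ι) (i j : ι) (r : ℚ) (c : ℝ)
    (h : Q.b i - Q.a i = c * Complex.exp (Real.pi * r * Complex.I) * (Q.b j - Q.a j)) :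
    Q.η i * (starRingEnd ℂ) (Q.η j) = Complex.exp (Real.pi * r * Complex.I) ^ 2 := by
  have hi := e_ne' Q i
  have hj := e_ne' Q j
  have h' : Q.e i = c * Complex.exp (Real.pi * r * Complex.I) * Q.e j := h
  have hc : (c : ℂ) ≠ 0 := by
    intro h0
    apply hi
    rw [h', h0]; simp
  have hE : Complex.exp (Real.pi * r * Complex.I) ≠ 0 := Complex.exp_ne_zero _
  have hj' : (starRingEnd ℂ) (Q.e j) ≠ 0 := by
    simpa using hj
  unfold Table.η
  rw [h', map_div₀, map_mul, map_mul, conj_exp, Complex.conj_ofReal, Complex.conj_conj]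
  field_simp

end RAT

theorem bRAT : RAT := by
  intro ι _ Q hQ
  choose r c h using hQ
  refine ⟨∏ p : ι × ι, (r p.1 p.2).den, ?_, ?_⟩
  · exact Finset.prod_pos fun p _ => (r p.1 p.2).den_pos
  · intro i j
    obtain ⟨m, hm⟩ : (r i j).den ∣ ∏ p : ι × ι, (r p.1 p.2).den :=
      Finset.dvd_prod_of_mem (fun p : ι × ι => (r p.1 p.2).den) (Finset.mem_univ (i, j))
    rw [hm, pow_mul, RAT.pair Q i j (r i j) (c i j) (h i j), RAT.pow_den, one_pow]

end Pool.Agent.Lib.BL10
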