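import Pool.Agent.Lib.BL10.Blue
import Pool.Agent.Lib.BT77.Blue

/-! Row RES: the multiplicity bound from holonomy, bounce count, labels and the circle bound. -/

namespace Pool.Agent.Lib.BL10

open Finset

namespace RES

lemma sum_getD (L : List ℂ) : ∑ i ∈ range L.length, L.getD i 0 = L.sum := by
  induction L with
  | nil => simp
  | cons a L ih =>
    rw [List.length_cons, sum_range_succ', List.sum_cons, ← ih, add_comm]
    rfl

lemma getD_mem (G : Finset ℂ) (L : List ℂ) (h : ∀ g ∈ L, g ∈ G) (i : ℕ) :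
    L.getD i 0 ∈ insert (0 : ℂ) (G : Set ℂ) := by
  by_cases hi : i < L.length
  · rw [List.getD_eq_getElem _ _ hi]
    exact Or.inr (h _ (List.getElem_mem hi))
  · rw [List.getD_eq_default _ _ (not_lt.1 hi)]
    exact Or.inl rfl

lemma mem_sums {G : Finset ℂ} {n : ℕ} {z : ℂ} {N r : ℝ} (h : SumLe G n z) (hn : (n : ℝ) ≤ N)
    (hz : ‖z‖ = r) : z ∈ BT77.sums (insert (0 : ℂ) (G : Set ℂ)) N r := by
  obtain ⟨L, h1, h2, h3⟩ := h
  refine ⟨hz, L.length, fun i => L.getD i 0, le_trans ?_ hn, getD_mem G L h2, ?_⟩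
  · exact_mod_cast h1
  · rw [sum_getD, h3]

end RES

theorem bRES (hH : HOL) (hB : BNC) (hC : CNT) (hK : Pool.Agent.Lib.BT77.CIRCG) : RES := by
  classical
  intro ι _ Q hQ ε hε
  obtain ⟨G, hG⟩ := hH ι Q hQ
  obtain ⟨C₁, hC₁, hb⟩ := hB ι Q hQ
  obtain ⟨C₂, hk⟩ := hK (insert (0 : ℂ) (G : Set ℂ)) (G.finite_toSet.insert 0) ε hε
  have hA : (0 : ℝ) ≤ 4 * (Fintype.card ι : ℝ) ^ 2 := by positivity
  have hM : (0 : ℝ) ≤ max C₂ 0 := le_max_right _ _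
  have hE : (0 : ℝ) ≤ (C₁ + 1) ^ ε := Real.rpow_nonneg (by linarith) _
  refine ⟨4 * (Fintype.card ι : ℝ) ^ 2 * (max C₂ 0 * (C₁ + 1) ^ ε), fun l F hl hF hP => ?_⟩
  have hL : (0 : ℝ) ≤ (1 + l) ^ ε := Real.rpow_nonneg (by linarith) _
  rcases F.eq_empty_or_nonempty with rfl | ⟨γ₀, hγ₀⟩
  · rw [card_empty, Nat.cast_zero]
    exact mul_nonneg (mul_nonneg hA (mul_nonneg hM hE)) hL
  have hl0 : 0 < l := by
    refine lt_of_le_of_ne hl fun h => ?_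
    have h1 := hb γ₀ (hF γ₀ hγ₀).1
    rw [(hF γ₀ hγ₀).2, ← h, mul_zero] at h1
    have h2 : (0 : ℝ) < γ₀.m := by exact_mod_cast (hF γ₀ hγ₀).1.2.1
    linarith
  have hCl : 0 ≤ C₁ * l := mul_nonneg hC₁ hl
  obtain ⟨hfin, hcard⟩ := hk (C₁ * l + 1) l (by linarith) hl0
  have hlc : (l : ℂ) ≠ 0 := by exact_mod_cast hl0.ne'
  have h1 := hC ι Q F (hfin.toFinset.image fun z => z / (l : ℂ)) (fun γ hγ => ⟨(hF γ hγ).1, fun k => by
    have h2 := hG γ (hF γ hγ).1 k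
    have h3 := hb γ (hF γ hγ).1
    rw [(hF γ hγ).2] at h2 h3
    refine mem_image.2 ⟨(l : ℂ) * γ.u k, hfin.mem_toFinset.2 (RES.mem_sums h2 (by linarith) ?_), ?_⟩
    · rw [norm_mul, ((hF γ hγ).1.1 k).2.1, mul_one, Complex.norm_real, Real.norm_of_nonneg hl]
    · exact mul_div_cancel_left₀ _ hlc⟩) hP
  have h2 : (#(hfin.toFinset.image fun z => z / (l : ℂ)) : ℝ) ≤ C₂ * (C₁ * l + 1) ^ ε := by
    refine le_trans ?_ hcard
    rw [Set.ncard_eq_toFinset_card _ hfin]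
    exact_mod_cast card_image_le
  have h3 : (C₁ * l + 1) ^ ε ≤ (C₁ + 1) ^ ε * (1 + l) ^ ε := by
    rw [← Real.mul_rpow (by linarith) (by linarith)]
    exact Real.rpow_le_rpow (by linarith) (by nlinarith) hε.le
  have h4 : C₂ * (C₁ * l + 1) ^ ε ≤ max C₂ 0 * ((C₁ + 1) ^ ε * (1 + l) ^ ε) :=
    (mul_le_mul_of_nonneg_right (le_max_left _ _) (Real.rpow_nonneg (by linarith) _)).trans
      (mul_le_mul_of_nonneg_left h3 hM)
  have h5 : (#F : ℝ) ≤ 4 * (Fintype.card ι : ℝ) ^ 2 *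
      (#(hfin.toFinset.image fun z => z / (l : ℂ)) : ℝ) := by exact_mod_cast h1
  calc (#F : ℝ) ≤ 4 * (Fintype.card ι : ℝ) ^ 2 * (max C₂ 0 * ((C₁ + 1) ^ ε * (1 + l) ^ ε)) :=
        h5.trans (mul_le_mul_of_nonneg_left (h2.trans h4) hA)
    _ = _ := by ring

end Pool.Agent.Lib.BL10
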