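import Pool.Agent.Lib.BL10.B_TRV

/-! Boundedly many bounces in a row on sides through one point. -/

namespace Pool.Agent.Lib.BL10

open Finset

namespace RUN

lemma c_zero {ι : Type} (Q : Table ι) {p : ℂ} {i : ι} (h : p ∈ segment ℝ (Q.a i) (Q.b i)) :
    Q.c p i = 0 := by
  obtain ⟨r, -, -, hr⟩ := TRV.mem_seg.1 h
  have he : (starRingEnd ℂ) (Q.e i) ≠ 0 := by simpa using TRV.e_ne Q i
  have h1 : Q.a i - p = -(r : ℂ) * Q.e i := by rw [hr]; simp only [Table.e]; ring
  simp only [Table.c, Table.η, h1, map_mul, map_neg, Complex.conj_ofReal]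
  field_simp
  ring

lemma cr_rot (w a b : ℂ) : cr (w * a) (w * b) = Complex.normSq w * cr a b := by
  simp [cr, Complex.normSq_apply]; ring

lemma cr_conj (a b : ℂ) : cr ((starRingEnd ℂ) a) ((starRingEnd ℂ) b) = -cr a b := by
  simp [cr]; ring

lemma conj_eta {ι : Type} (Q : Table ι) (i : ι) :
    (starRingEnd ℂ) (Q.η i) * Q.η i = 1 ∧
      (starRingEnd ℂ) (Q.η i) * Q.e i = (starRingEnd ℂ) (Q.e i) := by
  have he := TRV.e_ne Q i
  have he' : (starRingEnd ℂ) (Q.e i) ≠ 0 := by simpa using he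
  simp only [Table.η, map_div₀, Complex.conj_conj]
  constructor <;> field_simp

end RUN

open RUN in
theorem bRUN (hR : RAT) (hU : UNF) (hT : TRV) : RUN := by
  classical
  intro ι _ Q hQ
  obtain ⟨N, hN⟩ := hR ι Q hQ
  refine ⟨N * Fintype.card ι, ?_⟩
  intro s u x p h hp
  set R := N * Fintype.card ι with hRdef
  set L : ℕ → ℝ := fun k => ∑ j ∈ range k, ‖x (j + 1) - x j‖ with hL
  have hu0 : u 0 ≠ 0 := fun h0 => by have := (h 0).2.1; simp [h0] at this
  have hmono : StrictMono L := by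
    refine strictMono_nat_of_lt_succ fun k => ?_
    obtain ⟨-, hu, ⟨t, ht, hl⟩, -, -⟩ := h k
    have h1 : x (k + 1) - x k = t * u k := by rw [hl]; ring
    have h2 : 0 < ‖x (k + 1) - x k‖ := by
      rw [h1, norm_mul, hu, mul_one, Complex.norm_real, Real.norm_eq_abs]
      exact abs_pos.2 ht.ne'
    simp only [hL, sum_range_succ]
    linarith
  have hunf := hU ι Q N s u x p (fun k S => k ≤ R → S = 0) hN h (fun _ => rfl)
    (fun k S ζ _ hS hk => by rw [hS (by omega), c_zero Q (hp (k + 1) hk)]; simp)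
  have key : ∀ k, ∃ (ζ : ℂ) (ρ : ℝ), k ≤ R → ζ ^ N = 1 ∧ cr (u 0) (ζ * Q.e (s k)) ≠ 0 ∧
      x 0 - p + (L k : ℂ) * u 0 = ρ * (ζ * Q.e (s k)) := by
    intro k
    by_cases hk : k ≤ R
    swap
    · exact ⟨0, 0, fun h' => absurd h' hk⟩
    obtain ⟨S, ω, hS, hev, hod⟩ := hunf k
    have hS0 : S = 0 := hS hk
    obtain ⟨r1, -, -, hr1⟩ := TRV.mem_open.1 (h k).1
    obtain ⟨r2, -, -, hr2⟩ := TRV.mem_seg.1 (hp k hk)
    have hx : x k - p = ((r1 - r2 : ℝ) : ℂ) * Q.e (s k) := by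
      rw [hr1, hr2]; simp only [Table.e]; push_cast; ring
    have hc := (hT ι Q s u x h k).1
    by_cases hpar : Even k
    · obtain ⟨a1, a2, a3⟩ := hev hpar
      have hw : ω ≠ 0 := fun h0 => hu0 (by rw [← a2, h0, zero_mul])
      refine ⟨ω, r1 - r2, fun _ => ⟨a1, ?_, ?_⟩⟩
      · rw [← a2, cr_rot]
        exact mul_ne_zero (by simpa using hw) hc
      · rw [a3, hS0, hx]; ring
    · obtain ⟨a1, a2, a3⟩ := hod hpar
      have hw : ω ≠ 0 := fun h0 => hu0 (by rw [← a2, h0, zero_mul])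
      have hv : ω * (starRingEnd ℂ) (Q.η (s k)) * Q.e (s k) = ω * (starRingEnd ℂ) (Q.e (s k)) := by
        rw [mul_assoc, (conj_eta Q (s k)).2]
      refine ⟨ω * (starRingEnd ℂ) (Q.η (s k)), r1 - r2, fun _ => ⟨?_, ?_, ?_⟩⟩
      · have b1 : ω * (starRingEnd ℂ) (Q.η (s k)) = ω * (starRingEnd ℂ) (Q.η (s 0)) *
            (Q.η (s 0) * (starRingEnd ℂ) (Q.η (s k))) := by
          linear_combination (-(ω * (starRingEnd ℂ) (Q.η (s k)))) * (conj_eta Q (s 0)).1
        rw [b1, mul_pow, a1, hN.2, one_mul]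
      · rw [hv, ← a2, cr_rot, cr_conj]
        exact mul_ne_zero (by simpa using hw) (neg_ne_zero.2 hc)
      · rw [hv, a3, hS0, hx, map_mul, Complex.conj_ofReal]; ring
  choose ζ ρ hk using key
  have hcard : #((Polynomial.nthRoots N (1 : ℂ)).toFinset ×ˢ (univ : Finset ι)) <
      #(range (R + 1)) := by
    rw [card_product, card_univ, card_range]
    have h1 : #(Polynomial.nthRoots N (1 : ℂ)).toFinset ≤ N :=
      (Multiset.toFinset_card_le _).trans (Polynomial.card_nthRoots N 1)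
    exact Nat.lt_succ_of_le (Nat.mul_le_mul_right _ h1)
  obtain ⟨k, hk1, k', hk2, hne, heq⟩ := exists_ne_map_eq_of_card_lt_of_maps_to hcard
    (f := fun k => (ζ k, s k)) (fun k hk' => by
      have h1 : k ≤ R := Nat.lt_succ_iff.1 (mem_range.1 hk')
      simp only [coe_product, Set.mem_prod, mem_coe, Multiset.mem_toFinset, mem_univ, and_true]
      exact (Polynomial.mem_nthRoots hN.1).2 (hk k h1).1)
  obtain ⟨-, c1, d1⟩ := hk k (Nat.lt_succ_iff.1 (mem_range.1 hk1))
  obtain ⟨-, -, d2⟩ := hk k' (Nat.lt_succ_iff.1 (mem_range.1 hk2))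
  have e1 : ζ k = ζ k' := congrArg Prod.fst heq
  have e2 : s k = s k' := congrArg Prod.snd heq
  rw [← e1, ← e2] at d2
  set v := ζ k * Q.e (s k) with hv
  have f1 : ((L k - L k' : ℝ) : ℂ) * u 0 = ((ρ k - ρ k' : ℝ) : ℂ) * v := by
    push_cast; linear_combination d1 - d2
  have f2 : (L k - L k') * cr (u 0) v = 0 := by
    have g1 := congrArg Complex.re f1
    have g2 := congrArg Complex.im f1
    simp only [Complex.mul_re, Complex.mul_im, Complex.ofReal_re, Complex.ofReal_im, zero_mul,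
      sub_zero, add_zero] at g1 g2
    unfold cr
    linear_combination v.im * g1 - v.re * g2
  exact hne (hmono.injective (sub_eq_zero.1 ((mul_eq_zero.1 f2).resolve_right c1)))

end Pool.Agent.Lib.BL10
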