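import Pool.Agent.Lib.BL10.Blue

/-! Unfolding of a billiard trajectory. -/

namespace Pool.Agent.Lib.BL10

open Finset

namespace UNF

variable {ι : Type}

theorem e_ne (Q : Table ι) (i : ι) : Q.e i ≠ 0 := sub_ne_zero.2 (Q.ne i).symm

theorem ce_ne (Q : Table ι) (i : ι) : (starRingEnd ℂ) (Q.e i) ≠ 0 := by
  simpa using e_ne Q i

theorem eta_mul (Q : Table ι) (i : ι) : Q.η i * (starRingEnd ℂ) (Q.η i) = 1 := by
  have h1 := e_ne Q i
  have h2 := ce_ne Q i
  unfold Table.η
  rw [map_div₀, Complex.conj_conj]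
  field_simp

theorem line (Q : Table ι) (p y : ℂ) (i : ι) (hy : y ∈ openSegment ℝ (Q.a i) (Q.b i)) :
    (y - p) - Q.η i * (starRingEnd ℂ) (y - p) = Q.c p i := by
  obtain ⟨r, t, -, -, hrt, rfl⟩ := hy
  have h2 := ce_ne Q i
  have hr : r = 1 - t := by linarith
  have h : r • Q.a i + t • Q.b i - p = (Q.a i - p) + (t : ℂ) * Q.e i := by
    rw [hr]
    simp only [Table.e, Complex.real_smul]
    push_cast
    ring
  have h3 : Q.η i * (starRingEnd ℂ) (Q.e i) = Q.e i := by
    unfold Table.η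
    field_simp
  rw [h, map_add, map_mul, Complex.conj_ofReal]
  unfold Table.c
  linear_combination (-(t : ℂ)) * h3

theorem link (u x y : ℂ) (t : ℝ) (ht : 0 < t) (hu : ‖u‖ = 1) (h : y = x + t * u) :
    ((‖y - x‖ : ℝ) : ℂ) = t := by
  rw [h, add_sub_cancel_left, norm_mul, hu, mul_one, Complex.norm_real, Real.norm_of_nonneg ht.le]

end UNF

theorem bUNF : UNF := by
  intro ι Q N s u x p P hN hT h0 hP k
  induction k with
  | zero =>
    refine ⟨0, 1, h0, fun _ => ⟨one_pow _, one_mul _, by simp⟩, fun h => absurd (by simp) h⟩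
  | succ k ih =>
    obtain ⟨S, ω, hS, he, ho⟩ := ih
    obtain ⟨-, hu, ⟨t, ht, hx⟩, -, hm⟩ := hT k
    have hl := UNF.link (u k) (x k) (x (k + 1)) t ht hu hx
    have hc := UNF.line Q p (x (k + 1)) (s (k + 1)) (hT (k + 1)).1
    have hη := UNF.eta_mul Q (s (k + 1))
    have hm' : u (k + 1) = Q.η (s (k + 1)) * (starRingEnd ℂ) (u k) := hm
    have hsum : ((∑ j ∈ range (k + 1), ‖x (j + 1) - x j‖ : ℝ) : ℂ) =
        ((∑ j ∈ range k, ‖x (j + 1) - x j‖ : ℝ) : ℂ) + t := by
      rw [sum_range_succ, Complex.ofReal_add, hl]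
    by_cases hk : Even k
    · obtain ⟨h1, h2, h3⟩ := he hk
      have hz : ω ^ (2 * N) = 1 := by rw [mul_comm, pow_mul, h1, one_pow]
      refine ⟨_, ω * Q.η (s (k + 1)), hP k S ω hz hS,
        fun h => absurd h (by simpa [Nat.even_add_one] using hk), fun _ => ⟨?_, ?_, ?_⟩⟩
      · rw [mul_assoc, mul_pow, h1, one_mul]
        exact hN.2 _ _
      · rw [hm', map_mul, Complex.conj_conj]
        linear_combination (ω * u k) * hη + h2
      · rw [hsum]
        have hx' : x (k + 1) - p = x k - p + t * u k := by rw [hx]; ring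
        linear_combination h3 - (t : ℂ) * h2 - ω * hx' + ω * hc
    · obtain ⟨h1, h2, h3⟩ := ho hk
      have h4 : (ω * (starRingEnd ℂ) (Q.η (s (k + 1)))) ^ N = 1 := by
        have h5 := hN.2 (s 0) (s (k + 1))
        have h6 := UNF.eta_mul Q (s 0)
        have h7 : ω * (starRingEnd ℂ) (Q.η (s (k + 1))) =
            (ω * (starRingEnd ℂ) (Q.η (s 0))) *
              (Q.η (s 0) * (starRingEnd ℂ) (Q.η (s (k + 1)))) := by
          linear_combination (-(ω * (starRingEnd ℂ) (Q.η (s (k + 1))))) * h6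
        rw [h7, mul_pow, h1, h5, one_mul]
      have hz : (-(ω * (starRingEnd ℂ) (Q.η (s (k + 1))))) ^ (2 * N) = 1 := by
        rw [Even.neg_pow (even_two_mul N), mul_comm 2, pow_mul, h4, one_pow]
      refine ⟨_, ω * (starRingEnd ℂ) (Q.η (s (k + 1))), hP k S _ hz hS,
        fun _ => ⟨h4, ?_, ?_⟩, fun h => absurd (by simpa [Nat.even_add_one] using hk) h⟩
      · rw [hm']
        linear_combination (ω * (starRingEnd ℂ) (u k)) * hη + h2
      · rw [hsum]
        have hx' : (starRingEnd ℂ) (x (k + 1) - p) =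
            (starRingEnd ℂ) (x k - p) + t * (starRingEnd ℂ) (u k) := by
          have h8 : x (k + 1) - p = x k - p + t * u k := by rw [hx]; ring
          rw [h8, map_add, map_mul, Complex.conj_ofReal]
        linear_combination h3 - (t : ℂ) * h2 - ω * hx'
          - (ω * (starRingEnd ℂ) (Q.η (s (k + 1)))) * hc
          - (ω * (starRingEnd ℂ) (x (k + 1) - p)) * hη

end Pool.Agent.Lib.BL10
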