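import Pool.Agent.Lib.BL10.B_DET
import Pool.Agent.Lib.BL10.B_DISP
import Pool.Agent.Lib.BL10.B_UNF
import Pool.Agent.Lib.BL10.B_RAT
import Pool.Agent.Lib.BL10.B_GAP
import Pool.Agent.Lib.BL10.B_HOL
import Pool.Agent.Lib.BL10.B_RUN
import Pool.Agent.Lib.BL10.B_BNC
import Pool.Agent.Lib.BL10.B_CRIT
import Pool.Agent.Lib.BL10.B_LAB
import Pool.Agent.Lib.BL10.B_CNT
import Pool.Agent.Lib.BL10.B_RES
import Pool.Agent.Lib.BT77.B_CIRCG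
import Pool.Agent.Lib.BT77.B_NT
import Pool.Agent.Lib.BT77.B_IDV
import Pool.Agent.Lib.BT77.B_GEN

/-! Assembly. -/

namespace Pool.Agent.Lib.BL10

theorem st_RES : RES :=
  bRES (bHOL bRAT bUNF) (bBNC (bRUN bRAT bUNF bTRV) bGAP)
    (bCNT (bCRIT bTRV (bDISP bTRV (bDIS1 bTRV))) (bLAB bTRV bDET))
    (BT77.bCIRCG (BT77.bNT BT77.bIDV BT77.bGEN))

end Pool.Agent.Lib.BL10
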