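import Pool.Agent.Lib.BL10.B_TRV

/-! Determinism. -/

namespace Pool.Agent.Lib.BL10

namespace DET

open TRV

lemma not_lt {ι : Type} {Q : Table ι} {j : ι} {y u : ℂ} {t t' : ℝ} (h0 : 0 < t) (h : t < t')
    (hm : y + t * u ∈ openSegment ℝ (Q.a j) (Q.b j))
    (hd : Disjoint (openSegment ℝ y (y + t' * u)) (segment ℝ (Q.a j) (Q.b j))) : False := by
  have ht : 0 < t' := h0.trans h
  refine Set.disjoint_left.1 hd (mem_open.2 ⟨t / t', div_pos h0 ht, (div_lt_one ht).2 h, ?_⟩)
    (openSegment_subset_segment _ _ _ hm)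
  have : (t' : ℂ) ≠ 0 := by exact_mod_cast ht.ne'
  push_cast
  field_simp
  ring

end DET

theorem bDET : DET := by
  intro ι Q s s' u x u' x' h h' hu hx k
  induction k with
  | zero => exact ⟨hu, hx⟩
  | succ k ih =>
    obtain ⟨iu, ix⟩ := ih
    obtain ⟨-, -, ⟨t, ht, hl⟩, hd, hm⟩ := h k
    obtain ⟨-, -, ⟨t', ht', hl'⟩, hd', hm'⟩ := h' k
    have m1 := (h (k + 1)).1
    have m2 := (h' (k + 1)).1
    have ex : x (k + 1) = x' (k + 1) := by
      rw [hl] at m1 hd
      rw [hl', ← iu, ← ix] at m2 hd'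
      rcases lt_trichotomy t t' with c | c | c
      · exact (DET.not_lt ht c m1 (hd' _)).elim
      · rw [hl, hl', c, iu, ix]
      · exact (DET.not_lt ht' c m2 (hd _)).elim
    have es : s (k + 1) = s' (k + 1) := by
      by_contra hne
      rw [← ex] at m2
      exact Set.disjoint_left.1 (Q.disj _ _ hne) m1 (openSegment_subset_segment _ _ _ m2)
    exact ⟨by rw [hm, hm', es, iu], ex⟩

end Pool.Agent.Lib.BL10
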