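import Pool.Agent.Lib.BL10.B_TRV

/-! Displacement, first half. -/

namespace Pool.Agent.Lib.BL10

namespace DIS1

open TRV

lemma cr_add (w a b : ℂ) : cr w (a + b) = cr w a + cr w b := by simp [cr]; ring

lemma cr_sub (w a b : ℂ) : cr w (a - b) = cr w a - cr w b := by simp [cr]; ring

lemma cr_smul (w a : ℂ) (c : ℝ) : cr w (c * a) = c * cr w a := by simp [cr]; ring

lemma cr_self (w : ℂ) : cr w w = 0 := by simp [cr]; ring

lemma cr_swap (w a : ℂ) : cr w a = -cr a w := by simp [cr]; ring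

/-- the links of the displaced points keep their direction -/
lemma step (hT : TRV) {ι : Type} {Q : Table ι} {s : ℕ → ι} {u x : ℕ → ℂ} (h : IsTraj Q s u x)
    (k : ℕ) : ∃ l0 l1 : ℝ, 0 < l0 ∧ x (k + 1) = x k + l0 * u k ∧ ∀ t : ℝ,
      disp Q s u x t (k + 1) = disp Q s u x t k + ((l0 + t * l1 : ℝ) : ℂ) * u k := by
  obtain ⟨-, hu, ⟨l0, hl0, hl⟩, -, -⟩ := h k
  obtain ⟨c1, c2, -⟩ := hT ι Q s u x h k
  have c3 := (hT ι Q s u x h (k + 1)).1
  have hu0 : u k ≠ 0 := fun h0 => by simp [h0] at hu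
  have hD : cr (u k) ((((-1) ^ (k + 1) / cr (u (k + 1)) (Q.e (s (k + 1))) : ℝ) : ℂ) *
      Q.e (s (k + 1)) - (((-1) ^ k / cr (u k) (Q.e (s k)) : ℝ) : ℂ) * Q.e (s k)) = 0 := by
    rw [cr_sub, cr_smul, cr_smul, c2]
    field_simp
    ring
  obtain ⟨l1, h1⟩ := par hu0 hD
  refine ⟨l0, l1, hl0, hl, fun t => ?_⟩
  unfold disp
  rw [hl]
  push_cast at h1 ⊢
  linear_combination (t : ℂ) * h1

end DIS1

open TRV DIS1 in
theorem bDIS1 (hT : TRV) : DIS1 := by
  intro ι Q s u x τ h h0 hv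
  have p1 : ∀ t ∈ Set.Icc (0 : ℝ) τ, ∀ k,
      disp Q s u x t k ∈ openSegment ℝ (Q.a (s k)) (Q.b (s k)) := by
    intro t ht k
    obtain ⟨r, r0, r1, hr⟩ := mem_open.1 (h k).1
    set c : ℝ := (-1) ^ k / cr (u k) (Q.e (s k)) with hc
    have hd : ∀ t : ℝ, disp Q s u x t k =
        Q.a (s k) + ((r + t * c : ℝ) : ℂ) * (Q.b (s k) - Q.a (s k)) := by
      intro t
      unfold disp
      rw [hr, mul_div_assoc, ← hc]
      simp only [Table.e]
      push_cast
      ring
    refine mem_open.2 ⟨r + t * c, ?_, ?_, hd t⟩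
    · by_contra hn
      have hn := not_lt.1 hn
      have c0 : 0 < -c := by nlinarith [ht.1]
      have m : r / -c ∈ Set.Icc (0 : ℝ) τ :=
        ⟨by positivity, le_trans ((div_le_iff₀ c0).2 (by linarith)) ht.2⟩
      refine (hv _ m k (s k)).1 ?_
      have : r + r / -c * c = 0 := by
        have := c0.ne'
        have hc0 : c ≠ 0 := by simpa using this
        field_simp
        ring
      rw [hd, this]
      simpa using left_mem_segment ℝ _ _
    · by_contra hn
      have hn := not_lt.1 hn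
      have c0 : 0 < c := by nlinarith [ht.1]
      have m : (1 - r) / c ∈ Set.Icc (0 : ℝ) τ :=
        ⟨div_nonneg (by linarith) c0.le, le_trans ((div_le_iff₀ c0).2 (by linarith)) ht.2⟩
      refine (hv _ m k (s k)).2 ?_
      have : r + (1 - r) / c * c = 1 := by
        field_simp
        ring
      rw [hd, this]
      simpa using left_mem_segment ℝ _ _
  intro t ht k
  refine ⟨p1 t ht k, ?_⟩
  obtain ⟨l0, l1, hl0, -, hl⟩ := step hT h k
  refine ⟨l0 + t * l1, ?_, hl t⟩
  by_contra hn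
  have hn := not_lt.1 hn
  have c0 : 0 < -l1 := by nlinarith [ht.1]
  have m : l0 / -l1 ∈ Set.Icc (0 : ℝ) τ :=
    ⟨by positivity, le_trans ((div_le_iff₀ c0).2 (by linarith)) ht.2⟩
  have z : l0 + l0 / -l1 * l1 = 0 := by
    have := c0.ne'
    have hc0 : l1 ≠ 0 := by simpa using this
    field_simp
    ring
  have e := hl (l0 / -l1)
  rw [z] at e
  simp only [Complex.ofReal_zero, zero_mul, add_zero] at e
  have m2 := p1 _ m (k + 1)
  rw [e] at m2
  exact Set.disjoint_left.1 (Q.disj _ _ (hT ι Q s u x h k).2.2) (p1 _ m k)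
    (openSegment_subset_segment _ _ _ m2)

end Pool.Agent.Lib.BL10
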