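import Pool.Agent.Lib.BL10.Blue

/-! Transversality. -/

namespace Pool.Agent.Lib.BL10

namespace TRV

lemma mem_open {a b x : ℂ} : x ∈ openSegment ℝ a b ↔ ∃ r : ℝ, 0 < r ∧ r < 1 ∧ x = a + r * (b - a) := by
  rw [openSegment_eq_image']
  constructor
  · rintro ⟨r, ⟨h0, h1⟩, rfl⟩
    exact ⟨r, h0, h1, by simp⟩
  · rintro ⟨r, h0, h1, rfl⟩
    exact ⟨r, ⟨h0, h1⟩, by simp⟩

lemma mem_seg {a b x : ℂ} : x ∈ segment ℝ a b ↔ ∃ r : ℝ, 0 ≤ r ∧ r ≤ 1 ∧ x = a + r * (b - a) := by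
  rw [segment_eq_image']
  constructor
  · rintro ⟨r, ⟨h0, h1⟩, rfl⟩
    exact ⟨r, h0, h1, by simp⟩
  · rintro ⟨r, h0, h1, rfl⟩
    exact ⟨r, ⟨h0, h1⟩, by simp⟩

/-- a vector with zero cross product is a real multiple -/
lemma par {u v : ℂ} (hu : u ≠ 0) (h : cr u v = 0) : ∃ c : ℝ, v = c * u := by
  have hn : Complex.normSq u ≠ 0 := by simpa using hu
  rw [Complex.normSq_apply] at hn
  unfold cr at h
  refine ⟨(u.re * v.re + u.im * v.im) / (u.re * u.re + u.im * u.im), ?_⟩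
  apply Complex.ext
  · simp only [Complex.mul_re, Complex.ofReal_re, Complex.ofReal_im, zero_mul, sub_zero]
    rw [div_mul_eq_mul_div, eq_div_iff hn]
    linear_combination (-u.im) * h
  · simp only [Complex.mul_im, Complex.ofReal_re, Complex.ofReal_im, zero_mul, add_zero]
    rw [div_mul_eq_mul_div, eq_div_iff hn]
    linear_combination u.re * h

lemma cr_eq (u v : ℂ) : cr u v = ((starRingEnd ℂ) u * v).im := by
  simp [cr]; ring

lemma e_ne {ι : Type} (Q : Table ι) (i : ι) : Q.e i ≠ 0 := sub_ne_zero.2 (Q.ne i).symm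

lemma cr_mirror {e : ℂ} (he : e ≠ 0) (u : ℂ) : cr u e = -cr (mirror e u) e := by
  have h : (starRingEnd ℂ) (mirror e u) * e = (starRingEnd ℂ) ((starRingEnd ℂ) u * e) := by
    simp only [mirror, map_mul, map_div₀, Complex.conj_conj]
    field_simp
  rw [cr_eq, cr_eq, h, Complex.conj_im, neg_neg]

end TRV

open TRV in
theorem bTRV : TRV := by
  intro ι Q s u x h k
  obtain ⟨hx, hu, ⟨t, ht, hl⟩, hd, hm⟩ := h k
  refine ⟨fun h0 => ?_, ?_, fun hs => ?_⟩
  · have h1 : cr (Q.e (s k)) (u k) = 0 := by unfold cr at h0 ⊢; linarith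
    obtain ⟨c, hc⟩ := par (e_ne Q (s k)) h1
    obtain ⟨r, r0, r1, hr⟩ := mem_open.1 hx
    have hp : 0 < |t * c| + 1 := by positivity
    set q : ℝ := min (1 / 2) (min r (1 - r) / (|t * c| + 1)) with hq
    have q0 : 0 < q := lt_min (by norm_num) (div_pos (lt_min r0 (by linarith)) hp)
    have q1 : q < 1 := (min_le_left _ _).trans_lt (by norm_num)
    have q2 : q * (|t * c| + 1) ≤ min r (1 - r) := (le_div_iff₀ hp).1 (min_le_right _ _)
    have q3 := min_le_left r (1 - r)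
    have q4 := min_le_right r (1 - r)
    have a1 := le_abs_self (t * c)
    have a2 := neg_abs_le (t * c)
    refine Set.disjoint_left.1 (hd (s k)) (mem_open.2 ⟨q, q0, q1, rfl⟩)
      (mem_seg.2 ⟨r + q * (t * c), by nlinarith, by nlinarith, ?_⟩)
    rw [hl, hc, hr]
    simp only [Table.e]
    push_cast
    ring
  · rw [hm]
    exact cr_mirror (e_ne Q _) _
  · have h2 := (h (k + 1)).1
    rw [← hs] at h2
    have hc := convex_segment (𝕜 := ℝ) (Q.a (s k)) (Q.b (s k))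
    have hsub := hc.openSegment_subset (openSegment_subset_segment _ _ _ hx)
      (openSegment_subset_segment _ _ _ h2)
    have hz : x k + ((1 / 2 : ℝ) : ℂ) * (x (k + 1) - x k) ∈ openSegment ℝ (x k) (x (k + 1)) :=
      mem_open.2 ⟨1 / 2, by norm_num, by norm_num, rfl⟩
    exact Set.disjoint_left.1 (hd (s k)) hz (hsub hz)

end Pool.Agent.Lib.BL10
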