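import Pool.Agent.Lib.BL10.Defs

/-! Rows for the multiplicity of lengths of periodic families. -/

namespace Pool.Agent.Lib.BL10

open Finset

/-- direction of a side -/
def Table.e {ι : Type} (Q : Table ι) (i : ι) : ℂ := Q.b i - Q.a i

/-- square of the unit direction of a side -/
noncomputable def Table.η {ι : Type} (Q : Table ι) (i : ι) : ℂ := Q.e i / (starRingEnd ℂ) (Q.e i)

/-- translation part of the reflection in a side, origin at `p` -/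
noncomputable def Table.c {ι : Type} (Q : Table ι) (p : ℂ) (i : ι) : ℂ :=
  (Q.a i - p) - Q.η i * (starRingEnd ℂ) (Q.a i - p)

/-- cross product -/
def cr (u v : ℂ) : ℝ := u.re * v.im - u.im * v.re

/-- common order of the rotations -/
def Table.Ord {ι : Type} (Q : Table ι) (N : ℕ) : Prop :=
  0 < N ∧ ∀ i j, (Q.η i * (starRingEnd ℂ) (Q.η j)) ^ N = 1

/-- the parallel displacement of a trajectory -/
noncomputable def disp {ι : Type} (Q : Table ι) (s : ℕ → ι) (u x : ℕ → ℂ) (t : ℝ) (k : ℕ) : ℂ :=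
  x k + ((t * (-1) ^ k / cr (u k) (Q.e (s k)) : ℝ) : ℂ) * Q.e (s k)

/-- a sum of at most `n` elements of `G` -/
def SumLe {A : Type} [AddMonoid A] (G : Finset A) (n : ℕ) (v : A) : Prop :=
  ∃ l : List A, l.length ≤ n ∧ (∀ g ∈ l, g ∈ G) ∧ l.sum = v

/-- critical data: valid displacements before `τ`, a vertex on the line of link `k` at `τ` -/
def Crit {ι : Type} (Q : Table ι) (γ : Orbit ι) (τ : ℝ) (k : ℕ) (p : ℂ) : Prop :=
  0 < τ ∧ (∀ t ∈ Set.Ico (0 : ℝ) τ, IsTraj Q γ.s γ.u (disp Q γ.s γ.u γ.x t)) ∧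
    (∃ i, p = Q.a i ∨ p = Q.b i) ∧ cr (γ.u k) (p - γ.x k) = τ * (-1) ^ k

/-- transversality, and the sign change at a bounce -/
def TRV : Prop := ∀ (ι : Type) (Q : Table ι) (s : ℕ → ι) (u x : ℕ → ℂ), IsTraj Q s u x → ∀ k,
  cr (u k) (Q.e (s k)) ≠ 0 ∧ cr (u k) (Q.e (s (k + 1))) = -cr (u (k + 1)) (Q.e (s (k + 1))) ∧
    s k ≠ s (k + 1)

/-- a common order exists -/
def RAT : Prop := ∀ (ι : Type) [Fintype ι] (Q : Table ι), Q.Rational → ∃ N, Q.Ord N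

/-- unfolding -/
def UNF : Prop := ∀ (ι : Type) (Q : Table ι) (N : ℕ) (s : ℕ → ι) (u x : ℕ → ℂ) (p : ℂ)
  (P : ℕ → ℂ → Prop), Q.Ord N → IsTraj Q s u x → P 0 0 →
  (∀ k S ζ, ζ ^ (2 * N) = 1 → P k S → P (k + 1) (S + ζ * Q.c p (s (k + 1)))) →
  ∀ k, ∃ S ω : ℂ, P k S ∧
    (Even k → ω ^ N = 1 ∧ ω * u k = u 0 ∧
      x 0 - p + ((∑ j ∈ range k, ‖x (j + 1) - x j‖ : ℝ) : ℂ) * u 0 = S + ω * (x k - p)) ∧
    (¬ Even k → (ω * (starRingEnd ℂ) (Q.η (s 0))) ^ N = 1 ∧ ω * (starRingEnd ℂ) (u k) = u 0 ∧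
      x 0 - p + ((∑ j ∈ range k, ‖x (j + 1) - x j‖ : ℝ) : ℂ) * u 0 =
        S + ω * (starRingEnd ℂ) (x k - p))

/-- the holonomy is a short sum (uses RAT UNF) -/
def HOL : Prop := ∀ (ι : Type) [Fintype ι] (Q : Table ι), Q.Rational → ∃ G : Finset ℂ,
  ∀ γ : Orbit ι, Closed Q γ → ∀ k, SumLe G γ.m ((γ.len : ℂ) * γ.u k)

/-- boundedly many bounces in a row on sides through one point (uses RAT UNF TRV) -/
def RUN : Prop := ∀ (ι : Type) [Fintype ι] (Q : Table ι), Q.Rational → ∃ R : ℕ,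
  ∀ (s : ℕ → ι) (u x : ℕ → ℂ) (p : ℂ), IsTraj Q s u x →
    ¬ ∀ k ≤ R, p ∈ segment ℝ (Q.a (s k)) (Q.b (s k))

/-- sides that come close to one point have a common point -/
def GAP : Prop := ∀ (ι : Type) [Fintype ι] (Q : Table ι), ∃ δ : ℝ, 0 < δ ∧
  ∀ (J : Finset ι) (i : ι) (x : ℂ), x ∈ segment ℝ (Q.a i) (Q.b i) →
    (∀ j ∈ J, ∃ y ∈ segment ℝ (Q.a j) (Q.b j), ‖x - y‖ ≤ δ) →
    ∃ p, ∀ j ∈ J, p ∈ segment ℝ (Q.a j) (Q.b j)

/-- the number of bounces is at most linear in the length (uses RUN GAP) -/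
def BNC : Prop := ∀ (ι : Type) [Fintype ι] (Q : Table ι), Q.Rational → ∃ C : ℝ, 0 ≤ C ∧
  ∀ γ : Orbit ι, Closed Q γ → (γ.m : ℝ) ≤ C * γ.len

/-- first half of the displacement row: bounce points, links, no collapse (uses TRV) -/
def DIS1 : Prop := ∀ (ι : Type) (Q : Table ι) (s : ℕ → ι) (u x : ℕ → ℂ) (τ : ℝ),
  IsTraj Q s u x → 0 ≤ τ →
  (∀ t ∈ Set.Icc (0 : ℝ) τ, ∀ k i,
    Q.a i ∉ segment ℝ (disp Q s u x t k) (disp Q s u x t (k + 1)) ∧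
    Q.b i ∉ segment ℝ (disp Q s u x t k) (disp Q s u x t (k + 1))) →
  ∀ t ∈ Set.Icc (0 : ℝ) τ, ∀ k, disp Q s u x t k ∈ openSegment ℝ (Q.a (s k)) (Q.b (s k)) ∧
    ∃ l : ℝ, 0 < l ∧ disp Q s u x t (k + 1) = disp Q s u x t k + l * u k

/-- a displacement that meets no vertex is a trajectory (uses TRV DIS1) -/
def DISP : Prop := ∀ (ι : Type) (Q : Table ι) (s : ℕ → ι) (u x : ℕ → ℂ) (τ : ℝ),
  IsTraj Q s u x → 0 ≤ τ →
  (∀ t ∈ Set.Icc (0 : ℝ) τ, ∀ k i,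
    Q.a i ∉ segment ℝ (disp Q s u x t k) (disp Q s u x t (k + 1)) ∧
    Q.b i ∉ segment ℝ (disp Q s u x t k) (disp Q s u x t (k + 1))) →
  IsTraj Q s u (disp Q s u x τ)

/-- critical data exist (uses TRV DISP) -/
def CRIT : Prop := ∀ (ι : Type) [Fintype ι] (Q : Table ι) (γ : Orbit ι), Closed Q γ →
  ∃ τ k p, Crit Q γ τ k p

/-- the initial data determine the trajectory -/
def DET : Prop := ∀ (ι : Type) (Q : Table ι) (s s' : ℕ → ι) (u x u' x' : ℕ → ℂ),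
  IsTraj Q s u x → IsTraj Q s' u' x' → u 0 = u' 0 → x 0 = x' 0 → ∀ k, u k = u' k ∧ x k = x' k

/-- equal labels give one band (uses TRV DET) -/
def LAB : Prop := ∀ (ι : Type) (Q : Table ι) (γ γ' : Orbit ι) (τ τ' : ℝ) (k k' : ℕ) (p : ℂ),
  Closed Q γ → Closed Q γ' → Crit Q γ τ k p → Crit Q γ' τ' k' p → γ.u k = γ'.u k' →
  γ.s k = γ'.s k' → (Even k ↔ Even k') → SameBand Q γ γ'

/-- boundedly many bands for each direction (uses CRIT LAB) -/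
def CNT : Prop := ∀ (ι : Type) [Fintype ι] (Q : Table ι) (F : Finset (Orbit ι)) (W : Finset ℂ),
  (∀ γ ∈ F, Closed Q γ ∧ ∀ k, γ.u k ∈ W) →
  (F : Set (Orbit ι)).Pairwise (fun γ γ' => ¬ SameBand Q γ γ') →
  #F ≤ 4 * Fintype.card ι ^ 2 * #W

/-- the result (uses HOL BNC CNT and the circle bound of BT77) -/
def RES : Prop := ∀ (ι : Type) [Fintype ι] (Q : Table ι), Q.Rational → ∀ ε : ℝ, 0 < ε →
  ∃ C : ℝ, ∀ (l : ℝ) (F : Finset (Orbit ι)), 0 ≤ l → (∀ γ ∈ F, Closed Q γ ∧ γ.len = l) →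
    (F : Set (Orbit ι)).Pairwise (fun γ γ' => ¬ SameBand Q γ γ') →
    (#F : ℝ) ≤ C * (1 + l) ^ ε

end Pool.Agent.Lib.BL10
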