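import Mathlib

/-! Billiards in a table bounded by finitely many straight sides. -/

namespace Pool.Agent.Lib.BL10

/-- finitely many sides `[a i, b i]` in the plane; two sides meet at most in end points -/
structure Table (ι : Type) where
  a : ι → ℂ
  b : ι → ℂ
  ne : ∀ i, a i ≠ b i
  disj : ∀ i j, i ≠ j → Disjoint (openSegment ℝ (a i) (b i)) (segment ℝ (a j) (b j))

/-- the angle between any two sides is a rational multiple of pi -/
def Table.Rational {ι : Type} (Q : Table ι) : Prop :=
  ∀ i j, ∃ (r : ℚ) (c : ℝ),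
    Q.b i - Q.a i = c * Complex.exp (Real.pi * r * Complex.I) * (Q.b j - Q.a j)

/-- mirror image of the vector `u` in the line spanned by `e` -/
noncomputable def mirror (e u : ℂ) : ℂ := e / (starRingEnd ℂ) e * (starRingEnd ℂ) u

/-- a billiard trajectory: bounce points `x k` inside the sides `s k`, unit directions `u k`,
straight links that meet no side between their ends, reflection law at each bounce -/
def IsTraj {ι : Type} (Q : Table ι) (s : ℕ → ι) (u x : ℕ → ℂ) : Prop :=
  ∀ k, x k ∈ openSegment ℝ (Q.a (s k)) (Q.b (s k)) ∧ ‖u k‖ = 1 ∧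
    (∃ t : ℝ, 0 < t ∧ x (k + 1) = x k + t * u k) ∧
    (∀ j, Disjoint (openSegment ℝ (x k) (x (k + 1))) (segment ℝ (Q.a j) (Q.b j))) ∧
    u (k + 1) = mirror (Q.b (s (k + 1)) - Q.a (s (k + 1))) (u k)

/-- sides, directions, bounce points and number of bounces in one period -/
structure Orbit (ι : Type) where
  s : ℕ → ι
  u : ℕ → ℂ
  x : ℕ → ℂ
  m : ℕ

/-- a periodic trajectory that closes up after an even number of bounces -/
def Closed {ι : Type} (Q : Table ι) (γ : Orbit ι) : Prop :=
  IsTraj Q γ.s γ.u γ.x ∧ 0 < γ.m ∧ Even γ.m ∧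
    ∀ k, γ.s (k + γ.m) = γ.s k ∧ γ.u (k + γ.m) = γ.u k ∧ γ.x (k + γ.m) = γ.x k

/-- length of one period -/
noncomputable def Orbit.len {ι : Type} (γ : Orbit ι) : ℝ :=
  ∑ k ∈ Finset.range γ.m, ‖γ.x (k + 1) - γ.x k‖

/-- the orbit read from bounce `r` on can be moved parallel to itself to the points `z`
through periodic trajectories -/
def Slides {ι : Type} (Q : Table ι) (γ : Orbit ι) (r : ℕ) (z : ℕ → ℂ) : Prop :=
  (∀ k, z (k + γ.m) = z k) ∧ ∀ t ∈ Set.Icc (0 : ℝ) 1,
    IsTraj Q (fun k => γ.s (k + r)) (fun k => γ.u (k + r))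
      fun k => (1 - t) * γ.x (k + r) + t * z k

/-- two orbits lie in one band of parallel periodic trajectories -/
def SameBand {ι : Type} (Q : Table ι) (γ γ' : Orbit ι) : Prop :=
  ∃ (r r' : ℕ) (z : ℕ → ℂ), Slides Q γ r z ∧ Slides Q γ' r' z

end Pool.Agent.Lib.BL10
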